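import Pool.Agent.H69.AL.Main4

/-!
MP_a37e4a_nt, AlmostAll: in every interval `(x, x + y]`, `x ^ (2/5 + δ) ≤ y ≤ x`, all but at most `C y exp (- (log x) ^ c)` of
the `n` with `c_n` in the interval satisfy `c_n ^ (1/(n-1)) > c_(m+1) ^ (1/m)` for ALL `m ≥ n` (cyclic numbers `c_n`; the
inequality of Q1 is the case `m = n`); a gap `c_(n+1) - c_n ≥ (log c_n) ^ ε` is as rare.
-/

namespace Pool.Agent.Results.MP_a37e4a_nt.AlmostAll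

/-- `m` is a cyclic number: `gcd (m, φ m) = 1`. -/
def CyclicNumber (m : ℕ) : Prop := Nat.gcd m (Nat.totient m) = 1

/-- The `n`-th cyclic number `c_n` in increasing order, for `n ≥ 1`: `c_1 = 1`, `c_2 = 2`, `c_3 = 3`, `c_4 = 5`
(`Nat.nth` counts from `0`). -/
noncomputable def cyclic (n : ℕ) : ℕ := Nat.nth CyclicNumber (n - 1)

theorem result :
    (∀ ε : ℝ, 0 < ε → ∃ c : ℝ, 0 < c ∧ ∀ δ : ℝ, 0 < δ → ∃ C : ℝ, 0 < C ∧ ∀ x y : ℕ, 2 ≤ x →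
      (x : ℝ) ^ (2 / 5 + δ) ≤ y → y ≤ x →
      ({n : ℕ | 2 ≤ n ∧ (Real.log (cyclic n)) ^ ε ≤ (cyclic (n + 1) : ℝ) - cyclic n ∧
        x < cyclic n ∧ cyclic n ≤ x + y}.ncard : ℝ) ≤ C * y * Real.exp (-(Real.log x) ^ c)) ∧
    (∃ c : ℝ, 0 < c ∧ ∀ δ : ℝ, 0 < δ → ∃ C : ℝ, 0 < C ∧ ∀ x y : ℕ, 2 ≤ x →
      (x : ℝ) ^ (2 / 5 + δ) ≤ y → y ≤ x →
      ({n : ℕ | 2 ≤ n ∧
        ¬ (∀ m : ℕ, n ≤ m →
          (cyclic (m + 1) : ℝ) ^ (1 / (m : ℝ)) < (cyclic n : ℝ) ^ (1 / ((n : ℝ) - 1))) ∧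
        x < cyclic n ∧ cyclic n ≤ x + y}.ncard : ℝ) ≤ C * y * Real.exp (-(Real.log x) ^ c)) ∧
    (∃ c : ℝ, 0 < c ∧ ∀ δ : ℝ, 0 < δ → ∀ lam : ℝ, 0 < lam → ∃ C : ℝ, 0 < C ∧ ∀ x y : ℕ, 2 ≤ x →
      (x : ℝ) ^ (2 / 5 + δ) ≤ y → y ≤ x →
      ({n : ℕ | 2 ≤ n ∧
        ¬ (((n : ℝ) - 1) * (Real.log (cyclic (n + 1)) - Real.log (cyclic n)) <
          lam * Real.log (cyclic n)) ∧
        x < cyclic n ∧ cyclic n ≤ x + y}.ncard : ℝ) ≤ C * y * Real.exp (-(Real.log x) ^ c)) :=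
  Pool.Agent.H69.AL.main4

end Pool.Agent.Results.MP_a37e4a_nt.AlmostAll
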